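import Mathlib
import Pool.Agent.Work.MP_092669_al.Density

set_option autoImplicit false

namespace Pool.Agent.Results.MP_092669_al.DenseSubexp

/-- The infinite iterated wreath product `W` of `A_5`: the group of all automorphisms of the rooted
tree of finite words over a five letter alphabet (seen as permutations of the set of words) all of
whose local permutations lie in the alternating group.  Here the local permutation of `g` at the
vertex `v` is the `σ` with `g (v x) = g (v) σ(x)` for all letters `x`. -/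
def W : Subgroup (Equiv.Perm (List (Fin 5))) where
  carrier := {g | g [] = [] ∧ ∀ v : List (Fin 5), ∃ σ ∈ alternatingGroup (Fin 5),
    ∀ x : Fin 5, g (v ++ [x]) = g v ++ [σ x]}
  one_mem' := ⟨rfl, fun v => ⟨1, one_mem _, fun x => rfl⟩⟩
  mul_mem' := by
    rintro g h ⟨hg0, hg⟩ ⟨hh0, hh⟩
    refine ⟨by rw [Equiv.Perm.mul_apply, hh0, hg0], fun v => ?_⟩
    obtain ⟨σ, hσ, h1⟩ := hh v
    obtain ⟨τ, hτ, h2⟩ := hg (h v)
    refine ⟨τ * σ, mul_mem hτ hσ, fun x => ?_⟩
    rw [Equiv.Perm.mul_apply, Equiv.Perm.mul_apply, Equiv.Perm.mul_apply, h1, h2]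
  inv_mem' := by
    rintro g ⟨hg0, hg⟩
    have hgg : ∀ v, g (g⁻¹ v) = v := fun v => g.apply_symm_apply v
    refine ⟨by rw [Equiv.Perm.inv_eq_iff_eq, hg0], fun v => ?_⟩
    obtain ⟨σ, hσ, h1⟩ := hg (g⁻¹ v)
    have hss : ∀ x, σ (σ⁻¹ x) = x := fun x => σ.apply_symm_apply x
    refine ⟨σ⁻¹, inv_mem hσ, fun x => ?_⟩
    rw [Equiv.Perm.inv_eq_iff_eq, h1, hgg, hss]

/-- The set of elements of word length at most `r` with respect to `S` and the inverses of the
elements of `S`. -/
def ball (S : Finset (Equiv.Perm (List (Fin 5)))) (r : ℕ) : Set (Equiv.Perm (List (Fin 5))) :=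
  {g | ∃ l : List (Equiv.Perm (List (Fin 5))),
    l.length ≤ r ∧ (∀ s ∈ l, s ∈ S ∨ s⁻¹ ∈ S) ∧ l.prod = g}

/-- The infinite iterated wreath product of `A_5` has a finitely generated dense subgroup of
subexponential growth. -/
theorem result :
    ∃ S : Finset (Equiv.Perm (List (Fin 5))),
      Subgroup.closure (S : Set (Equiv.Perm (List (Fin 5)))) ≤ W ∧
      (∀ n : ℕ, ∀ w ∈ W, ∃ γ ∈ Subgroup.closure (S : Set (Equiv.Perm (List (Fin 5)))),
        ∀ v : List (Fin 5), v.length = n → γ v = w v) ∧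
      Filter.Tendsto (fun r : ℕ => ((ball S r).ncard : ℝ) ^ (1 / (r : ℝ)))
        Filter.atTop (nhds 1) := by
  refine ⟨Pool.Agent.Work.MP_092669_al.SS, ?_, ?_, ?_⟩
  · exact Pool.Agent.Work.MP_092669_al.Gm_le_W
  · intro n w hw
    obtain ⟨γ, h1, h2⟩ := Pool.Agent.Work.MP_092669_al.density n w hw
    exact ⟨γ, h1, fun v hv => (h2 v hv.le).symm⟩
  · exact Pool.Agent.Work.MP_092669_al.growth

end Pool.Agent.Results.MP_092669_al.DenseSubexp
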